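import Pool.Agent.P8H25.SpZ

/-!
# The one percent law for the sign conjecture

`C` is a `ℚ`-linear rigid symmetric monoidal category in which the endomorphisms of the unit object are the rational
numbers, for example the category `NChow(k)_ℚ` of noncommutative Chow motives, and `R` is a symmetric monoidal additive
functor to finite dimensional super vector spaces over a field `K`, for example `HP_±` in characteristic zero and
`TP_±(-)_{1/p}` in characteristic `p`.

An operator on `R(M)` is *algebraic* if it is a linear combination, with coefficients in `K`, of operators `R(f)` for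
endomorphisms `f` of `M`. Let `a⁺(M) = evenRank R M` be the largest dimension of the image of an algebraic idempotent
whose image lies in the even part `R(M)⁺`, and `a⁻(M) = oddRank R M` the same for the odd part `R(M)⁻`. So
`0 ≤ a⁺(M) ≤ dim R(M)⁺` and `0 ≤ a⁻(M) ≤ dim R(M)⁻`, and each equality is equivalent to `C⁺(M)`. We write `Mⁿ` for the
tensor power.

1. If `C⁺(M)` is false then there are numbers `δ_n`, decreasing to zero, such that
   `a⁺(Mⁿ ⊗ Y) ≤ δ_n dim R(Mⁿ ⊗ Y)⁺` and `a⁻(Mⁿ ⊗ Y) ≤ δ_n dim R(Mⁿ ⊗ Y)⁻` for all `n` and all objects `Y`.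
2. So `C⁺(M)` is equivalent to each of the following: there is a `δ > 0` with `a⁺(Mⁿ ⊗ Y) ≥ δ dim R(Mⁿ ⊗ Y)⁺` for
   arbitrarily large `n` and some `Y` (which may depend on `n`) with `R(Y) ≠ 0`; the same for the odd part; the same for
   `a⁺ + a⁻` and the dimension of `R(Mⁿ ⊗ Y)`.
3. Let `S` be a class of objects which is stable under tensor powers, for example the objects `U(A)` for the smooth and
   proper dg categories `A`, and let `0 < δ ≤ 1`. Then `C⁺` holds for all objects of `S` if and only if
   `a⁺(M) ≥ δ dim R(M)⁺` for all `M` in `S`, if and only if `a⁻(M) ≥ δ dim R(M)⁻` for all `M` in `S`, if and only if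
   `a⁺(M) + a⁻(M) ≥ δ dim R(M)` for all `M` in `S`.
-/

set_option autoImplicit false

open CategoryTheory Limits MonoidalCategory Filter Topology

namespace Pool.Agent.Results.MP_8f22fa_ag.OnePercentLaw

open Pool.Agent.Y112.SR Pool.Agent.Y112.KD Pool.Agent.P8H25.Pure

universe v u w

/-- **The one percent law for the sign conjecture.** -/
theorem result {C : Type u} [Category.{v} C] [Preadditive C] [Linear ℚ C] [MonoidalCategory C]
    [MonoidalPreadditive C] [MonoidalLinear ℚ C] [SymmetricCategory C] [RightRigidCategory C]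
    (hU : UnitQ C) {K : Type w} [Field K] (R : SuperRealisation C K) :
    (∀ M : C, ¬ R.CPlus M → ∃ δ : ℕ → ℝ, Antitone δ ∧ Tendsto δ atTop (𝓝 0) ∧
      ∀ (n : ℕ) (Y : C), (evenRank R (tp M n ⊗ Y) : ℝ) ≤ δ n * evenDim R (tp M n ⊗ Y) ∧
        (oddRank R (tp M n ⊗ Y) : ℝ) ≤ δ n * oddDim R (tp M n ⊗ Y)) ∧
    (∀ M : C, [R.CPlus M, evenRank R M = evenDim R M, oddRank R M = oddDim R M,
      Persists R (evenRank R) (evenDim R) M, Persists R (oddRank R) (oddDim R) M,
      Persists R (pureRank R) (dim R) M].TFAE) ∧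
    (∀ S : C → Prop, (∀ M, S M → ∀ n, S (tp M (n + 1))) → ∀ δ : ℝ, 0 < δ → δ ≤ 1 →
      [∀ M, S M → R.CPlus M,
        ∀ M, S M → δ * (evenDim R M : ℝ) ≤ evenRank R M,
        ∀ M, S M → δ * (oddDim R M : ℝ) ≤ oddRank R M,
        ∀ M, S M → δ * (dim R M : ℝ) ≤ pureRank R M].TFAE) :=
  ⟨fun _ hM => Pool.Agent.P8H25.Sp.decay_ranks hU R hM,
    fun M => Pool.Agent.P8H25.Sp.one_object hU R M,
    fun S hS δ h0 h1 => Pool.Agent.P8H25.Sp.class_law hU R S hS δ h0 h1⟩

end Pool.Agent.Results.MP_8f22fa_ag.OnePercentLaw
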